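import Mathlib

namespace Pool.Agent.Results.MP_484523_pr.Islands

/-- Majority of three bits. -/
def maj (a b c : Bool) : Bool := (a && b) || (a && c) || (b && c)

/-- The trajectory of NEC-voting; `TR y 0 = y` is the problem's time `-1`. -/
def TR (y : ℤ × ℤ → Bool) : ℕ → ℤ × ℤ → Bool
  | 0, s => y s
  | t + 1, s => maj (TR y t s) (TR y t (s.1 + 1, s.2)) (TR y t (s.1, s.2 + 1))

/-- Every finite perturbation of `y` has a trajectory that is a finite perturbation of `TR y`. -/
def IsAttractor (y : ℤ × ℤ → Bool) : Prop :=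
  ∀ y' : ℤ × ℤ → Bool, {s | y' s ≠ y s}.Finite →
    {p : (ℤ × ℤ) × ℕ | TR y' p.2 p.1 ≠ TR y p.2 p.1}.Finite

def Tri (k : ℕ) (t : ℤ) (s : ℤ × ℤ) : Prop :=
  (k:ℤ) * k + k ≤ s.1 ∧ 0 ≤ s.2 ∧ s.1 + s.2 ≤ (k:ℤ) * k + k + k - t

open Classical in
noncomputable def Y (s : ℤ × ℤ) : Bool := decide (∃ k, Tri k 0 s)

lemma maj_true {a b c : Bool} (h : maj a b c = true) :
    (a = true ∧ b = true) ∨ (a = true ∧ c = true) ∨ (b = true ∧ c = true) := by
  revert a b c
  decide

lemma gap {j k : ℕ} (h : j < k) : (j:ℤ) * j + j + j + 2 ≤ (k:ℤ) * k + k := by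
  have : (j:ℤ) + 1 ≤ k := by exact_mod_cast h
  have h0 : (0:ℤ) ≤ j := by positivity
  nlinarith

lemma same {j k : ℕ} {u v : ℤ × ℤ} (hu : Tri j 0 u) (hv : Tri k 0 v)
    (h1 : u.1 + u.2 ≤ v.1 + v.2 + 1) (h2 : v.1 + v.2 ≤ u.1 + u.2 + 1) : j = k := by
  unfold Tri at hu hv
  rcases lt_trichotomy j k with h | h | h
  · have := gap h
    omega
  · exact h
  · have := gap h
    omega

lemma upper (t : ℕ) : ∀ s, TR Y t s = true → ∃ k, Tri k 0 s := by
  induction t with
  | zero =>
    intro s h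
    classical
    exact of_decide_eq_true h
  | succ t ih =>
    intro s h
    rcases maj_true h with ⟨h1, _⟩ | ⟨h1, _⟩ | ⟨h1, h2⟩
    · exact ih s h1
    · exact ih s h1
    · obtain ⟨j, hj⟩ := ih _ h1
      obtain ⟨k, hk⟩ := ih _ h2
      have e := same hj hk (by simp only; omega) (by simp only; omega)
      subst e
      refine ⟨j, ?_⟩
      unfold Tri at hj hk ⊢
      simp only at hj hk
      omega

lemma lower (k t : ℕ) : ∀ s, Tri k t s → TR Y t s = true := by
  induction t with
  | zero =>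
    intro s h
    classical
    exact decide_eq_true ⟨k, h⟩
  | succ t ih =>
    intro s h
    have h1 := ih (s.1 + 1, s.2) (by unfold Tri at h ⊢; push_cast at h; simp only; omega)
    have h2 := ih (s.1, s.2 + 1) (by unfold Tri at h ⊢; push_cast at h; simp only; omega)
    show maj _ _ _ = true
    rw [h1, h2]
    simp [maj]

lemma agree {y y' : ℤ × ℤ → Bool} {c : ℤ} (h : ∀ s : ℤ × ℤ, c ≤ s.1 + s.2 → y' s = y s) (t : ℕ) :
    ∀ s : ℤ × ℤ, c ≤ s.1 + s.2 → TR y' t s = TR y t s := by
  induction t with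
  | zero => exact h
  | succ t ih =>
    intro s hs
    show maj _ _ _ = maj _ _ _
    rw [ih s hs, ih (s.1 + 1, s.2) (by simp only; omega), ih (s.1, s.2 + 1) (by simp only; omega)]

lemma shrink {y : ℤ × ℤ → Bool} {c R : ℤ}
    (h0 : ∀ s : ℤ × ℤ, y s = true → -R ≤ s.1 ∧ -R ≤ s.2)
    (hl : ∀ t (s : ℤ × ℤ), s.1 + s.2 = c → TR y t s = false) (t : ℕ) :
    ∀ s : ℤ × ℤ, s.1 + s.2 ≤ c → TR y t s = true → -R ≤ s.1 ∧ -R ≤ s.2 ∧ s.1 + s.2 ≤ c - t := by
  induction t with
  | zero =>
    intro s hs h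
    have := h0 s h
    push_cast
    omega
  | succ t ih =>
    intro s hs h
    have hs' : s.1 + s.2 ≠ c := fun e => by
      rw [hl _ s e] at h
      exact Bool.false_ne_true h
    push_cast
    rcases maj_true h with ⟨h1, h2⟩ | ⟨h1, h2⟩ | ⟨h1, h2⟩
    · have a := ih _ hs h1
      have b := ih _ (by simp only; omega) h2
      simp only at b
      omega
    · have a := ih _ hs h1
      have b := ih _ (by simp only; omega) h2
      simp only at b
      omega
    · have a := ih _ (by simp only; omega) h1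
      have b := ih _ (by simp only; omega) h2
      simp only at a b
      omega

theorem result : ∃ y : ℤ × ℤ → Bool, IsAttractor y ∧
    ∀ t : ℕ, {s | TR y t s = true}.Infinite ∧ {s | TR y t s = false}.Infinite := by
  refine ⟨Y, ?_, fun t => ⟨?_, ?_⟩⟩
  · intro y' hf
    obtain ⟨K, hK⟩ := (hf.image fun s => s.1.natAbs + s.2.natAbs).bddAbove
    have hK' : ∀ s, y' s ≠ Y s → s.1.natAbs + s.2.natAbs ≤ K := fun s hs =>
      hK (Set.mem_image_of_mem _ hs)
    obtain ⟨c, hc⟩ : ∃ c : ℤ, c = ((K + 2 : ℕ) : ℤ) * ((K + 2 : ℕ) : ℤ) + ((K + 2 : ℕ) : ℤ) - 1 :=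
      ⟨_, rfl⟩
    have hcK : (K:ℤ) < c := by
      rw [hc]
      push_cast
      nlinarith [sq_nonneg ((K:ℤ) + 2)]
    have ha := agree (y := Y) (y' := y') (c := c) fun s hs => by
      by_contra h
      have := hK' s h
      omega
    have hline : ∀ t (s : ℤ × ℤ), s.1 + s.2 = c → TR Y t s = false := by
      intro t s hs
      by_contra h
      obtain ⟨k, hk⟩ := upper t s (by simpa using h)
      unfold Tri at hk
      rcases lt_trichotomy k (K + 2) with h1 | h1 | h1
      · have := gap h1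
        omega
      · subst h1
        omega
      · have := gap h1
        omega
    have hY : ∀ s : ℤ × ℤ, Y s = true → -(K:ℤ) ≤ s.1 ∧ -(K:ℤ) ≤ s.2 := by
      intro s hs
      obtain ⟨k, hk⟩ := upper 0 s hs
      unfold Tri at hk
      have : (0:ℤ) ≤ (k:ℤ) * k + k := by positivity
      omega
    have s1 := shrink hY hline
    have s2 := shrink (y := y') (c := c) (R := K) (fun s hs => by
      by_cases h : y' s = Y s
      · exact hY s (h ▸ hs)
      · have := hK' s h
        omega) fun t s hs => by rw [ha t s hs.ge, hline t s hs]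
    refine (((Set.finite_Icc (-(K:ℤ)) (c + K)).prod (Set.finite_Icc (-(K:ℤ)) (c + K))).prod
      (Set.finite_Iic (c + 2 * K).toNat)).subset ?_
    rintro ⟨s, t⟩ hp
    have hp' : TR y' t s ≠ TR Y t s := hp
    have h1 : s.1 + s.2 ≤ c := by
      by_contra h
      exact hp' (ha t s (by omega))
    have h2 : -(K:ℤ) ≤ s.1 ∧ -(K:ℤ) ≤ s.2 ∧ s.1 + s.2 ≤ c - t := by
      cases h3 : TR y' t s
      · rw [h3] at hp'
        exact s1 t s h1 (by simpa using hp'.symm)
      · exact s2 t s h1 h3
    simp only [Set.mem_prod, Set.mem_Icc, Set.mem_Iic]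
    omega
  · refine Set.infinite_of_injective_forall_mem
      (f := fun n : ℕ => ((((n + t : ℕ) : ℤ) * ((n + t : ℕ) : ℤ) + ((n + t : ℕ) : ℤ), 0) : ℤ × ℤ))
      ?_ fun n => lower (n + t) t _ ?_
    · intro a b h
      have h1 := congrArg Prod.fst h
      simp only at h1
      rcases lt_trichotomy (a + t) (b + t) with h2 | h2 | h2
      · have := gap h2
        omega
      · omega
      · have := gap h2
        omega
    · unfold Tri
      simp only
      omega
  · refine Set.infinite_of_injective_forall_mem (f := fun n : ℕ => (((n:ℤ), -1) : ℤ × ℤ))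
      ?_ fun n => ?_
    · intro a b h
      simpa using h
    · by_contra h
      obtain ⟨k, hk⟩ := upper t ((n:ℤ), -1) (by simpa using h)
      unfold Tri at hk
      simp only at hk
      omega

end Pool.Agent.Results.MP_484523_pr.Islands
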